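import Mathlib

/-!
# Charge integrals of the charged polymer

`G μ β ℓ a = ∫ exp(-β (a + ω₁ + ... + ω_ℓ)²) dμ^ℓ`, its one-step lower bound and the
factorisation of the charge average over the sites.
-/

set_option autoImplicit false

open MeasureTheory Finset

namespace Pool.Agent.Lib.P8e4414

/-- `G μ β ℓ a` is the expectation of `exp(-β (a + ω₁ + ... + ω_ℓ)²)`. -/
noncomputable def G (μ : Measure ℝ) (β : ℝ) : ℕ → ℝ → ℝ
  | 0, a => Real.exp (-β * a ^ 2)
  | ℓ + 1, a => ∫ t, G μ β ℓ (a + t) ∂μ

section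

variable {μ : Measure ℝ} {β : ℝ}

lemma G_stronglyMeasurable [IsProbabilityMeasure μ] (ℓ : ℕ) : StronglyMeasurable (G μ β ℓ) := by
  induction ℓ with
  | zero =>
    apply Continuous.stronglyMeasurable
    change Continuous (fun a : ℝ => Real.exp (-β * a ^ 2))
    fun_prop
  | succ ℓ ih =>
    have h : StronglyMeasurable (fun p : ℝ × ℝ => G μ β ℓ (p.1 + p.2)) :=
      ih.comp_measurable (measurable_fst.add measurable_snd)
    exact h.integral_prod_right'

lemma G_nonneg (ℓ : ℕ) (a : ℝ) : 0 ≤ G μ β ℓ a := by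
  induction ℓ generalizing a with
  | zero => unfold G; positivity
  | succ ℓ ih => exact integral_nonneg (fun t => ih _)

lemma G_le_one [IsProbabilityMeasure μ] (hβ : 0 ≤ β) (ℓ : ℕ) (a : ℝ) : G μ β ℓ a ≤ 1 := by
  induction ℓ generalizing a with
  | zero =>
    unfold G
    rw [Real.exp_le_one_iff]
    nlinarith [sq_nonneg a]
  | succ ℓ ih =>
    calc G μ β (ℓ + 1) a = ∫ t, G μ β ℓ (a + t) ∂μ := rfl
      _ ≤ ∫ _, (1:ℝ) ∂μ := by
        apply integral_mono_of_nonneg (ae_of_all _ fun t => G_nonneg _ _) (integrable_const _)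
        exact ae_of_all _ fun t => ih _
      _ = 1 := by simp

lemma G_integrable [IsProbabilityMeasure μ] (hβ : 0 ≤ β) (ℓ : ℕ) (a : ℝ) :
    Integrable (fun t => G μ β ℓ (a + t)) μ := by
  apply Integrable.of_bound (C := 1)
  · exact ((G_stronglyMeasurable ℓ).comp_measurable (measurable_const.add measurable_id)).aestronglyMeasurable
  · refine ae_of_all _ fun t => ?_
    rw [Real.norm_of_nonneg (G_nonneg _ _)]
    exact G_le_one hβ _ _

/-- The one-step inequality. -/
lemma G_succ_ge [IsProbabilityMeasure μ] (hβ : 0 ≤ β) {c : ℝ}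
    (hc : ∀ a : ℝ, c * Real.exp (-β * a ^ 2) ≤ ∫ t, Real.exp (-β * (a + t) ^ 2) ∂μ) (ℓ : ℕ)
    (a : ℝ) : c * G μ β ℓ a ≤ G μ β (ℓ + 1) a := by
  induction ℓ generalizing a with
  | zero => exact hc a
  | succ ℓ ih =>
    calc c * G μ β (ℓ + 1) a = ∫ t, c * G μ β ℓ (a + t) ∂μ := by
          rw [integral_const_mul]; rfl
      _ ≤ ∫ t, G μ β (ℓ + 1) (a + t) ∂μ := by
        apply integral_mono ((G_integrable hβ ℓ a).const_mul c) (G_integrable hβ (ℓ + 1) a)
        intro t
        exact ih _
      _ = G μ β (ℓ + 1 + 1) a := rfl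

/-- A one-step constant exists if `μ` charges both half-lines. -/
lemma exists_step_const [IsProbabilityMeasure μ] (hβ : 0 < β) (hneg : μ (Set.Iic 0) ≠ 0)
    (hpos : μ (Set.Ici 0) ≠ 0) :
    ∃ c : ℝ, 0 < c ∧ c ≤ 1 ∧
      ∀ a : ℝ, c * Real.exp (-β * a ^ 2) ≤ ∫ t, Real.exp (-β * (a + t) ^ 2) ∂μ := by
  obtain ⟨K, hK⟩ : ∃ K : ℕ, μ (Set.Icc (-(K:ℝ)) 0) ≠ 0 := by
    by_contra hcon
    push Not at hcon
    apply hneg
    have : Set.Iic (0:ℝ) = ⋃ K : ℕ, Set.Icc (-(K:ℝ)) 0 := by
      ext x
      simp only [Set.mem_Iic, Set.mem_iUnion, Set.mem_Icc, exists_and_right]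
      constructor
      · intro hx
        obtain ⟨K, hK⟩ := exists_nat_ge (-x)
        exact ⟨⟨K, by linarith⟩, hx⟩
      · exact fun h => h.2
    rw [this]
    exact measure_iUnion_null hcon
  obtain ⟨L, hL⟩ : ∃ L : ℕ, μ (Set.Icc 0 (L:ℝ)) ≠ 0 := by
    by_contra hcon
    push Not at hcon
    apply hpos
    have : Set.Ici (0:ℝ) = ⋃ K : ℕ, Set.Icc 0 (K:ℝ) := by
      ext x
      simp only [Set.mem_Ici, Set.mem_iUnion, Set.mem_Icc]
      constructor
      · intro hx
        obtain ⟨K, hK⟩ := exists_nat_ge x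
        exact ⟨K, hx, hK⟩
      · rintro ⟨K, h1, h2⟩
        exact h1
    rw [this]
    exact measure_iUnion_null hcon
  have hrK : 0 < μ.real (Set.Icc (-(K:ℝ)) 0) :=
    ENNReal.toReal_pos hK (measure_ne_top _ _)
  have hrL : 0 < μ.real (Set.Icc 0 (L:ℝ)) :=
    ENNReal.toReal_pos hL (measure_ne_top _ _)
  have hint : ∀ a : ℝ, Integrable (fun t => Real.exp (-β * (a + t) ^ 2)) μ := fun a =>
    G_integrable (β := β) hβ.le 0 a
  set D : ℝ := (K:ℝ) ^ 2 + (L:ℝ) ^ 2 with hD
  refine ⟨min (μ.real (Set.Icc (-(K:ℝ)) 0)) (μ.real (Set.Icc 0 (L:ℝ))) * Real.exp (-β * D),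
    by positivity, ?_, ?_⟩
  · have h1 : min (μ.real (Set.Icc (-(K:ℝ)) 0)) (μ.real (Set.Icc 0 (L:ℝ))) ≤ 1 :=
      (min_le_left _ _).trans measureReal_le_one
    have h2 : Real.exp (-β * D) ≤ 1 := by
      rw [Real.exp_le_one_iff]
      have : 0 ≤ D := by positivity
      nlinarith
    have h3 : 0 ≤ min (μ.real (Set.Icc (-(K:ℝ)) 0)) (μ.real (Set.Icc 0 (L:ℝ))) := by positivity
    calc _ ≤ (1:ℝ) * 1 := mul_le_mul h1 h2 (by positivity) (by norm_num)
      _ = 1 := by norm_num
  · intro a
    have key : ∀ s : Set ℝ, MeasurableSet s → (∀ t ∈ s, (a + t) ^ 2 ≤ a ^ 2 + D) →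
        μ.real s * (Real.exp (-β * D) * Real.exp (-β * a ^ 2)) ≤
          ∫ t, Real.exp (-β * (a + t) ^ 2) ∂μ := by
      intro s hs hst
      calc μ.real s * (Real.exp (-β * D) * Real.exp (-β * a ^ 2))
          = ∫ t in s, (Real.exp (-β * D) * Real.exp (-β * a ^ 2)) ∂μ := by
            rw [setIntegral_const, smul_eq_mul]
        _ ≤ ∫ t in s, Real.exp (-β * (a + t) ^ 2) ∂μ := by
            apply setIntegral_mono_on (integrable_const _).integrableOn (hint a).integrableOn hs
            intro t ht
            rw [← Real.exp_add]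
            apply Real.exp_le_exp.mpr
            have := hst t ht
            nlinarith
        _ ≤ ∫ t, Real.exp (-β * (a + t) ^ 2) ∂μ :=
            setIntegral_le_integral (hint a) (ae_of_all _ fun t => (Real.exp_pos _).le)
    have hfin : ∀ r : ℝ, min (μ.real (Set.Icc (-(K:ℝ)) 0)) (μ.real (Set.Icc 0 (L:ℝ))) ≤ r →
        min (μ.real (Set.Icc (-(K:ℝ)) 0)) (μ.real (Set.Icc 0 (L:ℝ))) * Real.exp (-β * D) *
          Real.exp (-β * a ^ 2) ≤ r * (Real.exp (-β * D) * Real.exp (-β * a ^ 2)) := by
      intro r hr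
      rw [mul_assoc]
      exact mul_le_mul_of_nonneg_right hr (by positivity)
    rcases le_total 0 a with ha | ha
    · refine (hfin _ (min_le_left _ _)).trans (key _ measurableSet_Icc ?_)
      rintro t ⟨ht1, ht2⟩
      nlinarith [sq_nonneg (L:ℝ), mul_nonneg ha (neg_nonneg.mpr ht2)]
    · refine (hfin _ (min_le_right _ _)).trans (key _ measurableSet_Icc ?_)
      rintro t ⟨ht1, ht2⟩
      nlinarith [sq_nonneg (K:ℝ), mul_nonneg (neg_nonneg.mpr ha) ht1]

/-- Factorisation of the charge average over the sites. -/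
lemma integral_pi_eq_prod [IsProbabilityMeasure μ] (hβ : 0 ≤ β) {X : Type*} [DecidableEq X]
    (A : Finset X) (n : ℕ) (p : Fin n → X) (hp : ∀ i, p i ∈ A) (a : X → ℝ) :
    ∫ ω : Fin n → ℝ, Real.exp (-β * ∑ x ∈ A, (a x + ∑ i, if p i = x then ω i else 0) ^ 2)
      ∂(Measure.pi fun _ => μ) =
    ∏ x ∈ A, G μ β (Finset.univ.filter fun i => p i = x).card (a x) := by
  induction n generalizing a with
  | zero =>
    rw [Measure.pi_of_empty]
    simp only [univ_eq_empty, sum_empty, add_zero, integral_const, Finset.filter_empty,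
      card_empty, G]
    rw [← Real.exp_sum, Finset.mul_sum]
    simp
  | succ n ih =>
    have hmp := measurePreserving_piFinSuccAbove (fun _ : Fin (n + 1) => μ) 0
    set F : (Fin (n + 1) → ℝ) → ℝ := fun ω =>
      Real.exp (-β * ∑ x ∈ A, (a x + ∑ i, if p i = x then ω i else 0) ^ 2) with hF
    have hFb : ∀ ω, ‖F ω‖ ≤ 1 := by
      intro ω
      rw [hF, Real.norm_of_nonneg (Real.exp_pos _).le, Real.exp_le_one_iff]
      have : 0 ≤ ∑ x ∈ A, (a x + ∑ i, if p i = x then ω i else 0) ^ 2 := by positivity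
      nlinarith
    have hFm : Measurable F := by
      apply Measurable.exp
      apply Measurable.const_mul
      apply Finset.measurable_sum
      intro x _
      apply Measurable.pow_const
      apply Measurable.const_add
      apply Finset.measurable_sum
      intro i _
      by_cases h : p i = x
      · simp only [h, if_true]; exact measurable_pi_apply i
      · simp only [h, if_false]; exact measurable_const
    have hcons : ∀ z : ℝ × (Fin n → ℝ),
        (MeasurableEquiv.piFinSuccAbove (fun _ : Fin (n + 1) => ℝ) 0).symm z =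
          (Fin.cons z.1 z.2 : Fin (n + 1) → ℝ) := by
      intro z
      simp [MeasurableEquiv.piFinSuccAbove_symm_apply, Fin.insertNthEquiv, Fin.insertNth_zero']
    have e1 : ∫ ω, F ω ∂(Measure.pi fun _ => μ) =
        ∫ z : ℝ × (Fin n → ℝ), F (Fin.cons z.1 z.2) ∂(μ.prod (Measure.pi fun _ => μ)) := by
      have := hmp.symm.integral_comp (MeasurableEquiv.measurableEmbedding _) F
      rw [← this]
      simp only [hcons]
    rw [e1, integral_prod]
    · have e2 : ∀ t : ℝ, ∫ y : Fin n → ℝ, F (Fin.cons t y) ∂(Measure.pi fun _ => μ) =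
          ∏ x ∈ A, G μ β (Finset.univ.filter fun i : Fin n => p i.succ = x).card
            (a x + if p 0 = x then t else 0) := by
        intro t
        rw [← ih (fun i => p i.succ) (fun i => hp _)]
        apply integral_congr_ae
        refine ae_of_all _ fun y => ?_
        simp only [hF]
        congr 2
        apply Finset.sum_congr rfl
        intro x _
        rw [Fin.sum_univ_succ]
        simp only [Fin.cons_zero, Fin.cons_succ]
        ring
      simp only [e2]
      have hmem := hp 0
      rw [← Finset.mul_prod_erase A _ hmem]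
      have e3 : ∀ t : ℝ, ∏ x ∈ A, G μ β (Finset.univ.filter fun i : Fin n => p i.succ = x).card
            (a x + if p 0 = x then t else 0) =
          G μ β (Finset.univ.filter fun i : Fin n => p i.succ = p 0).card (a (p 0) + t) *
          ∏ x ∈ A.erase (p 0), G μ β (Finset.univ.filter fun i : Fin n => p i.succ = x).card
            (a x) := by
        intro t
        rw [← Finset.mul_prod_erase A _ hmem]
        congr 1
        · simp
        · apply Finset.prod_congr rfl
          intro x hx
          rw [if_neg (Finset.ne_of_mem_erase hx).symm, add_zero]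
      simp only [e3]
      rw [integral_mul_const]
      congr 1
      · have hcard : (Finset.univ.filter fun i : Fin (n + 1) => p i = p 0).card =
            (Finset.univ.filter fun i : Fin n => p i.succ = p 0).card + 1 := by
          rw [Fin.card_filter_univ_succ]
          simp
        rw [hcard]
        rfl
      · apply Finset.prod_congr rfl
        intro x hx
        have hcard : (Finset.univ.filter fun i : Fin (n + 1) => p i = x).card =
            (Finset.univ.filter fun i : Fin n => p i.succ = x).card := by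
          rw [Fin.card_filter_univ_succ, if_neg (Finset.ne_of_mem_erase hx).symm]
        rw [hcard]
    · apply Integrable.of_bound (C := 1)
      · apply Measurable.aestronglyMeasurable
        have h2 := hFm.comp
          (MeasurableEquiv.piFinSuccAbove (fun _ : Fin (n + 1) => ℝ) 0).symm.measurable
        simpa only [Function.comp_def, hcons] using h2
      · exact ae_of_all _ fun z => hFb _

end

end Pool.Agent.Lib.P8e4414
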