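import Mathlib

/-!
# Convergence of nearly superadditive sequences with a sublinear loss of length and value
-/

set_option autoImplicit false

open Filter Topology

namespace Pool.Agent.Lib.P8e4414

/-- The doubling chain. -/
def chain (s : ℕ → ℕ) (n : ℕ) : ℕ → ℕ
  | 0 => n
  | j + 1 => 2 * chain s n j + s (2 * chain s n j)

lemma chain_two_mul_le (s : ℕ → ℕ) (n j : ℕ) : 2 * chain s n j ≤ chain s n (j + 1) := by
  simp [chain]

lemma chain_ge (s : ℕ → ℕ) (n j : ℕ) : 2 ^ j * n ≤ chain s n j := by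
  induction j with
  | zero => simp [chain]
  | succ j ih =>
    calc 2 ^ (j + 1) * n = 2 * (2 ^ j * n) := by ring
      _ ≤ 2 * chain s n j := by omega
      _ ≤ _ := chain_two_mul_le s n j

lemma rpow_third_two : (2 : ℝ) ^ (-(1:ℝ)/3) ≤ 4 / 5 := by
  have h1 : ((4:ℝ) / 5) ^ (-(3:ℝ)) ≤ 2 := by
    rw [Real.rpow_neg (by norm_num), show (3:ℝ) = ((3:ℕ):ℝ) by norm_num, Real.rpow_natCast]
    norm_num
  have h2 : (2 : ℝ) ^ (-(1:ℝ)/3) ≤ (((4:ℝ) / 5) ^ (-(3:ℝ))) ^ (-(1:ℝ)/3) := by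
    apply Real.rpow_le_rpow_of_nonpos (by positivity) h1 (by norm_num)
  rwa [← Real.rpow_mul (by norm_num), show -(3:ℝ) * (-(1:ℝ)/3) = 1 by norm_num, Real.rpow_one] at h2

section

variable {b : ℕ → ℝ} {C K : ℝ} {s : ℕ → ℕ}

lemma ratio_nonneg (hmono : Monotone b) (h0 : 0 ≤ b 0) (n : ℕ) : 0 ≤ b n :=
  h0.trans (hmono (Nat.zero_le n))

lemma chain_ratio (hmono : Monotone b) (h0 : 0 ≤ b 0) (hC : ∀ n, b n ≤ C * n) (hC0 : 0 ≤ C)
    (hK : 0 ≤ K) (hs : ∀ n : ℕ, (s n : ℝ) ≤ K * (n:ℝ) ^ ((2:ℝ)/3))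
    (hsup : ∀ n m, b n + b m - s (n + m) ≤ b (n + m + s (n + m))) (n : ℕ) (hn : 1 ≤ n) (j : ℕ) :
    b n / n - 5 * ((1 + C) * K) * ((n:ℝ) ^ (-(1:ℝ)/3) - (chain s n j : ℝ) ^ (-(1:ℝ)/3)) ≤
      b (chain s n j) / chain s n j := by
  induction j with
  | zero => simp [chain]
  | succ j ih =>
    set M := chain s n j with hM
    have hM1 : 1 ≤ M := by
      have := chain_ge s n j
      calc 1 ≤ 2 ^ j * n := Nat.mul_pos (by positivity) hn
        _ ≤ M := this
    have hMr : (1 : ℝ) ≤ M := by exact_mod_cast hM1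
    have hMp : (0 : ℝ) < M := by linarith
    have hN : chain s n (j + 1) = M + M + s (M + M) := by
      simp only [chain, ← hM]; rw [two_mul]
    set N := chain s n (j + 1) with hNdef
    have h2M : 2 * M ≤ N := by rw [hN]; omega
    have h2Mr : (2 : ℝ) * M ≤ N := by exact_mod_cast h2M
    have hNp : (0 : ℝ) < N := by linarith
    have hb := hsup M M
    rw [← hN] at hb
    set σ : ℝ := (s (M + M) : ℝ) with hσ
    have hσ0 : 0 ≤ σ := by positivity
    have hNr : (N : ℝ) = 2 * M + σ := by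
      rw [hN]; push_cast; ring
    have hbM : 0 ≤ b M := ratio_nonneg hmono h0 M
    have hbMC : b M ≤ C * M := hC M
    -- step inequality
    have h1 : b M / M - (σ / (2 * M)) * (1 + C) ≤ b N / N := by
      have h2 : (2 * b M - σ) / N ≤ b N / N := by
        apply div_le_div_of_nonneg_right _ hNp.le
        linarith
      refine le_trans ?_ h2
      rw [hNr, le_div_iff₀ (by linarith)]
      have h3 : b M / M ≤ C := by
        rw [div_le_iff₀ hMp]; exact hbMC
      have h4 : 0 ≤ b M / M := by positivity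
      have h5 : b M = (b M / M) * M := by field_simp
      set ρ := b M / M with hρ
      have h6 : σ = (σ / (2 * M)) * (2 * M) := by field_simp
      set τ := σ / (2 * M) with hτ
      have hτ0 : 0 ≤ τ := by positivity
      rw [h5, h6]
      have : (ρ - τ * (1 + C)) * (2 * ↑M + τ * (2 * ↑M)) =
        2 * M * ((ρ - τ * (1 + C)) * (1 + τ)) := by ring
      rw [this]
      have : 2 * (ρ * ↑M) - τ * (2 * ↑M) = 2 * M * (ρ - τ) := by ring
      rw [this]
      apply mul_le_mul_of_nonneg_left _ (by positivity)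
      nlinarith [mul_nonneg hτ0 hτ0, mul_nonneg hτ0 hC0, mul_nonneg (mul_nonneg hτ0 hτ0) hC0,
        mul_nonneg hτ0 (sub_nonneg.2 h3)]
    -- bound on σ / (2M)
    have h2 : σ / (2 * M) ≤ K * (M : ℝ) ^ (-(1:ℝ)/3) := by
      have h3 : σ ≤ K * ((2 * M : ℝ)) ^ ((2:ℝ)/3) := by
        have := hs (M + M)
        rw [show ((M + M : ℕ) : ℝ) = 2 * M by push_cast; ring] at this
        exact this
      have h4 : σ / (2 * M) ≤ K * ((2 * M : ℝ)) ^ (-(1:ℝ)/3) := by
        rw [div_le_iff₀ (by positivity)]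
        calc σ ≤ K * ((2 * M : ℝ)) ^ ((2:ℝ)/3) := h3
          _ = K * ((2 * M : ℝ)) ^ (-(1:ℝ)/3) * (2 * M) := by
            rw [mul_assoc]
            congr 1
            have : (2 * M : ℝ) ^ ((2:ℝ)/3) = (2 * M : ℝ) ^ (-(1:ℝ)/3 + 1) := by norm_num
            rw [this, Real.rpow_add (by positivity), Real.rpow_one]
      refine h4.trans ?_
      apply mul_le_mul_of_nonneg_left _ hK
      apply Real.rpow_le_rpow_of_nonpos (by positivity) (by linarith) (by norm_num)
    have h3 : (N : ℝ) ^ (-(1:ℝ)/3) ≤ 4 / 5 * (M : ℝ) ^ (-(1:ℝ)/3) := by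
      calc (N : ℝ) ^ (-(1:ℝ)/3) ≤ (2 * M : ℝ) ^ (-(1:ℝ)/3) :=
            Real.rpow_le_rpow_of_nonpos (by positivity) h2Mr (by norm_num)
        _ = (2 : ℝ) ^ (-(1:ℝ)/3) * (M : ℝ) ^ (-(1:ℝ)/3) := by
            rw [Real.mul_rpow (by norm_num) (by positivity)]
        _ ≤ _ := by
            apply mul_le_mul_of_nonneg_right rpow_third_two (by positivity)
    have hpos : 0 ≤ (M : ℝ) ^ (-(1:ℝ)/3) := by positivity
    set x := (M : ℝ) ^ (-(1:ℝ)/3) with hx
    set y := (N : ℝ) ^ (-(1:ℝ)/3) with hy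
    have hCK : 0 ≤ (1 + C) * K := by positivity
    have h5 : (σ / (2 * M)) * (1 + C) ≤ (1 + C) * K * x := by
      calc (σ / (2 * M)) * (1 + C) ≤ (K * x) * (1 + C) :=
            mul_le_mul_of_nonneg_right h2 (by linarith)
        _ = _ := by ring
    have h6 : (1 + C) * K * x ≤ 5 * ((1 + C) * K) * (x - y) := by
      have : x ≤ 5 * (x - y) := by linarith
      calc (1 + C) * K * x ≤ (1 + C) * K * (5 * (x - y)) := mul_le_mul_of_nonneg_left this hCK
        _ = _ := by ring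
    nlinarith [h1, h5, h6, ih]

lemma add_copies (hmono : Monotone b) (h0 : 0 ≤ b 0) (hsm : Monotone s)
    (hsup : ∀ n m, b n + b m - s (n + m) ≤ b (n + m + s (n + m))) (M N : ℕ) (q : ℕ)
    (hq : q * (M + s N) ≤ N) : (q : ℝ) * (b M - s N) ≤ b (q * (M + s N)) := by
  induction q with
  | zero => simpa using h0
  | succ q ih =>
    have hq' : q * (M + s N) + (M + s N) ≤ N := by
      have : (q + 1) * (M + s N) = q * (M + s N) + (M + s N) := by ring
      omega
    have ih' := ih (by omega)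
    have h1 := hsup (q * (M + s N)) M
    have h2 : s (q * (M + s N) + M) ≤ s N := hsm (by omega)
    have h3 : b (q * (M + s N) + M + s (q * (M + s N) + M)) ≤ b ((q + 1) * (M + s N)) := by
      apply hmono
      have : (q + 1) * (M + s N) = q * (M + s N) + (M + s N) := by ring
      omega
    have h2' : (s (q * (M + s N) + M) : ℝ) ≤ s N := by exact_mod_cast h2
    push_cast
    nlinarith

lemma final_step (hmono : Monotone b) (h0 : 0 ≤ b 0) (hC : ∀ n, b n ≤ C * n) (hC0 : 0 ≤ C)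
    (hK : 0 ≤ K) (hsm : Monotone s) (hs : ∀ n : ℕ, (s n : ℝ) ≤ K * (n:ℝ) ^ ((2:ℝ)/3))
    (hsup : ∀ n m, b n + b m - s (n + m) ≤ b (n + m + s (n + m))) (n : ℕ) (hn : 1 ≤ n)
    (hsn : ∀ m, n ≤ m → s (2 * m) ≤ m) (Q : ℕ) (hQ : 1 ≤ Q) (N : ℕ) (hN : Q * n ≤ N) :
    b n / n - 5 * ((1 + C) * K) * (n:ℝ) ^ (-(1:ℝ)/3) - C / Q -
      3 * Q * K * (1 + C) * (N:ℝ) ^ (-(1:ℝ)/3) ≤ b N / N := by
  classical
  -- largest j with Q * chain j ≤ N
  have hex : ∃ j, N < Q * chain s n (j + 1) := by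
    refine ⟨N, ?_⟩
    have h1 := chain_ge s n (N + 1)
    have h2 : N < 2 ^ (N + 1) := lt_trans (Nat.lt_succ_self N) (Nat.lt_two_pow_self)
    calc N < 2 ^ (N + 1) := h2
      _ ≤ 2 ^ (N + 1) * n := Nat.le_mul_of_pos_right _ hn
      _ ≤ chain s n (N + 1) := h1
      _ ≤ Q * chain s n (N + 1) := Nat.le_mul_of_pos_left _ hQ
  set j := Nat.find hex with hj
  have hj1 : N < Q * chain s n (j + 1) := Nat.find_spec hex
  have hj2 : Q * chain s n j ≤ N := by
    rcases Nat.eq_zero_or_pos j with h | h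
    · rw [h]; simpa [chain] using hN
    · have := Nat.find_min hex (m := j - 1) (by omega)
      rw [not_lt, show j - 1 + 1 = j by omega] at this
      exact this
  set M := chain s n j with hM
  have hMn : n ≤ M := by
    calc n ≤ 2 ^ j * n := Nat.le_mul_of_pos_left _ (by positivity)
      _ ≤ M := chain_ge s n j
  have hM1 : 1 ≤ M := hn.trans hMn
  have hchain : chain s n (j + 1) ≤ 3 * M := by
    simp only [chain, ← hM]
    have := hsn M hMn
    omega
  have hNM : N < Q * (3 * M) := lt_of_lt_of_le hj1 (Nat.mul_le_mul_left _ hchain)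
  have hMN : M ≤ N := le_trans (Nat.le_mul_of_pos_left _ hQ) hj2
  have hN1 : 1 ≤ N := hM1.trans hMN
  have hMr : (0 : ℝ) < M := by exact_mod_cast hM1
  have hNr : (0 : ℝ) < N := by exact_mod_cast hN1
  have hQr : (0 : ℝ) < Q := by exact_mod_cast hQ
  have hratio := chain_ratio hmono h0 hC hC0 hK hs hsup n hn j
  rw [← hM] at hratio
  set q := N / (M + s N) with hq
  have hqN : q * (M + s N) ≤ N := Nat.div_mul_le_self N _
  have hcop := add_copies hmono h0 hsm hsup M N q hqN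
  have hbN : (q : ℝ) * (b M - s N) ≤ b N := hcop.trans (hmono hqN)
  set σ : ℝ := (s N : ℝ) with hσ
  have hσ0 : 0 ≤ σ := by positivity
  have hq_le : (q : ℝ) ≤ N / M := by
    rw [le_div_iff₀ hMr]
    have : (q : ℝ) * (M + σ) ≤ N := by
      have : ((q * (M + s N) : ℕ) : ℝ) ≤ N := by exact_mod_cast hqN
      push_cast at this
      exact this
    nlinarith [mul_nonneg (Nat.cast_nonneg q : (0:ℝ) ≤ q) hσ0]
  have hq_ge : (N : ℝ) / (M + σ) - 1 ≤ q := by
    have h1 : N < (q + 1) * (M + s N) := by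
      have e1 := Nat.div_add_mod N (M + s N)
      have e2 := Nat.mod_lt N (show 0 < M + s N by omega)
      rw [← hq] at e1
      calc N = (M + s N) * q + N % (M + s N) := e1.symm
        _ < (M + s N) * q + (M + s N) := by omega
        _ = (q + 1) * (M + s N) := by ring
    have h2 : (N : ℝ) < (q + 1) * (M + σ) := by
      have : ((N : ℕ) : ℝ) < (((q + 1) * (M + s N) : ℕ) : ℝ) := by exact_mod_cast h1
      push_cast at this
      exact this
    have : (N : ℝ) / (M + σ) < q + 1 := by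
      rw [div_lt_iff₀ (by positivity)]; exact h2
    linarith
  have hbM : 0 ≤ b M := ratio_nonneg hmono h0 M
  have hbMC : b M ≤ C * M := hC M
  set ρ := b M / M with hρ
  have hρ0 : 0 ≤ ρ := by positivity
  have hρC : ρ ≤ C := by rw [hρ, div_le_iff₀ hMr]; exact hbMC
  have hbρ : b M = ρ * M := by rw [hρ]; field_simp
  -- main lower bound
  have h1 : (q : ℝ) * b M ≥ N * ρ - N * (C * σ / M) - C * M := by
    have h2 : ((N : ℝ) / (M + σ) - 1) * b M ≤ q * b M := mul_le_mul_of_nonneg_right hq_ge hbM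
    have h3 : (N : ℝ) / (M + σ) * b M ≥ N * ρ - N * (C * σ / M) := by
      have h4 : (1 : ℝ) / (M + σ) ≥ 1 / M - σ / M ^ 2 := by
        rw [ge_iff_le, div_sub_div _ _ (by positivity) (by positivity), div_le_div_iff₀ (by positivity) (by positivity)]
        nlinarith [mul_nonneg (mul_nonneg hσ0 hσ0) hMr.le]
      have h5 : (N : ℝ) / (M + σ) * b M = N * b M * (1 / (M + σ)) := by ring
      rw [h5]
      have h6 : N * b M * (1 / M - σ / M ^ 2) = N * ρ - N * (ρ * σ / M) := by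
        rw [hbρ]; field_simp
      calc N * b M * (1 / (M + σ)) ≥ N * b M * (1 / M - σ / M ^ 2) :=
            mul_le_mul_of_nonneg_left h4 (by positivity)
        _ = N * ρ - N * (ρ * σ / M) := h6
        _ ≥ N * ρ - N * (C * σ / M) := by
            have : ρ * σ / M ≤ C * σ / M := by
              apply div_le_div_of_nonneg_right _ hMr.le
              exact mul_le_mul_of_nonneg_right hρC hσ0
            have := mul_le_mul_of_nonneg_left this hNr.le
            linarith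
    nlinarith
  have h2 : (q : ℝ) * σ ≤ N * (σ / M) := by
    calc (q : ℝ) * σ ≤ N / M * σ := mul_le_mul_of_nonneg_right hq_le hσ0
      _ = _ := by ring
  have h3 : (M : ℝ) ≤ N / Q := by
    rw [le_div_iff₀ hQr]
    have : ((Q * M : ℕ) : ℝ) ≤ N := by exact_mod_cast hj2
    push_cast at this
    linarith
  have h4 : σ / M ≤ 3 * Q * K * (N:ℝ) ^ (-(1:ℝ)/3) := by
    rw [div_le_iff₀ hMr]
    have h5 : (N : ℝ) ≤ 3 * Q * M := by
      have : ((N : ℕ) : ℝ) < ((Q * (3 * M) : ℕ) : ℝ) := by exact_mod_cast hNM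
      push_cast at this
      linarith
    calc σ ≤ K * (N:ℝ) ^ ((2:ℝ)/3) := hs N
      _ = K * ((N:ℝ) ^ (-(1:ℝ)/3) * N) := by
          have : (N : ℝ) ^ ((2:ℝ)/3) = (N : ℝ) ^ (-(1:ℝ)/3 + 1) := by norm_num
          rw [this, Real.rpow_add hNr, Real.rpow_one]
      _ ≤ K * ((N:ℝ) ^ (-(1:ℝ)/3) * (3 * Q * M)) := by
          apply mul_le_mul_of_nonneg_left _ hK
          exact mul_le_mul_of_nonneg_left h5 (by positivity)
      _ = _ := by ring
  have h5 : b N ≥ N * ρ - N * ((1 + C) * (σ / M)) - C * M := by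
    have : (q : ℝ) * (b M - s N) = q * b M - q * σ := by rw [hσ]; ring
    rw [this] at hbN
    have h6 : (N : ℝ) * ((1 + C) * (σ / M)) = N * (C * σ / M) + N * (σ / M) := by ring
    linarith
  have h6 : b N / N ≥ ρ - (1 + C) * (σ / M) - C / Q := by
    rw [ge_iff_le, le_div_iff₀ hNr]
    have : C * M ≤ C * (N / Q) := mul_le_mul_of_nonneg_left h3 hC0
    have e : (ρ - (1 + C) * (σ / M) - C / Q) * N = N * ρ - N * ((1 + C) * (σ / M)) - C * (N / Q) := by
      ring
    rw [e]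
    linarith
  have h7 : (1 + C) * (σ / M) ≤ 3 * Q * K * (1 + C) * (N:ℝ) ^ (-(1:ℝ)/3) := by
    calc (1 + C) * (σ / M) ≤ (1 + C) * (3 * Q * K * (N:ℝ) ^ (-(1:ℝ)/3)) :=
          mul_le_mul_of_nonneg_left h4 (by linarith)
      _ = _ := by ring
  have h8 : 0 ≤ 5 * ((1 + C) * K) * (M : ℝ) ^ (-(1:ℝ)/3) := by positivity
  have h9 : b n / n - 5 * ((1 + C) * K) * (n:ℝ) ^ (-(1:ℝ)/3) ≤ ρ := by
    have : 5 * ((1 + C) * K) * ((n:ℝ) ^ (-(1:ℝ)/3) - (M : ℝ) ^ (-(1:ℝ)/3)) =
      5 * ((1 + C) * K) * (n:ℝ) ^ (-(1:ℝ)/3) - 5 * ((1 + C) * K) * (M : ℝ) ^ (-(1:ℝ)/3) := by ring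
    rw [this] at hratio
    linarith
  linarith

/-- Convergence of a nearly superadditive monotone sequence. -/
theorem tendsto_of_near_superadd (hmono : Monotone b) (h0 : 0 ≤ b 0) (hC : ∀ n, b n ≤ C * n)
    (hC0 : 0 ≤ C) (hK : 0 ≤ K) (hsm : Monotone s)
    (hs : ∀ n : ℕ, (s n : ℝ) ≤ K * (n:ℝ) ^ ((2:ℝ)/3))
    (hsup : ∀ n m, b n + b m - s (n + m) ≤ b (n + m + s (n + m))) :
    ∃ ℓ : ℝ, Tendsto (fun n : ℕ => b n / n) atTop (𝓝 ℓ) := by
  set β : ℕ → ℝ := fun n => b n / n with hβ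
  have hβ0 : ∀ n, 0 ≤ β n := fun n => div_nonneg (ratio_nonneg hmono h0 n) (Nat.cast_nonneg n)
  have hβC : ∀ n, β n ≤ C := by
    intro n
    rcases Nat.eq_zero_or_pos n with h | h
    · simp [hβ, h, hC0]
    · have : (0:ℝ) < n := by exact_mod_cast h
      show b n / n ≤ C
      rw [div_le_iff₀ this]; exact hC n
  have hbdd : IsBoundedUnder (· ≤ ·) atTop β := isBoundedUnder_of ⟨C, hβC⟩
  have hbdd' : IsBoundedUnder (· ≥ ·) atTop β := isBoundedUnder_of ⟨0, hβ0⟩
  -- eventually s (2m) ≤ m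
  have hsmall : ∃ n0, ∀ n, n0 ≤ n → s (2 * n) ≤ n := by
    have ht : Tendsto (fun n : ℕ => (2 * K) * ((2 * n : ℕ) : ℝ) ^ (-(1:ℝ)/3)) atTop (𝓝 (2 * K * 0)) := by
      apply Tendsto.const_mul
      have h1 : Tendsto (fun x : ℝ => x ^ (-((1:ℝ)/3))) atTop (𝓝 0) :=
        tendsto_rpow_neg_atTop (by norm_num)
      have h2 : Tendsto (fun n : ℕ => ((2 * n : ℕ) : ℝ)) atTop atTop := by
        apply tendsto_natCast_atTop_atTop.comp
        exact tendsto_id.const_mul_atTop' (by norm_num)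
      have := h1.comp h2
      simpa [neg_div, Function.comp_def] using this
    rw [mul_zero] at ht
    obtain ⟨n0, hn0⟩ := (ht.eventually (gt_mem_nhds (show (0:ℝ) < 1 by norm_num))).exists_forall_of_atTop
    refine ⟨n0 + 1, fun n hn => ?_⟩
    have h1 := hn0 n (by omega)
    have h2 := hs (2 * n)
    have hnp : (0 : ℝ) < ((2 * n : ℕ) : ℝ) := by exact_mod_cast (show 0 < 2 * n by omega)
    have h3 : ((2 * n : ℕ) : ℝ) ^ ((2:ℝ)/3) = ((2 * n : ℕ) : ℝ) ^ (-(1:ℝ)/3) * ((2 * n : ℕ) : ℝ) := by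
      have : ((2 * n : ℕ) : ℝ) ^ ((2:ℝ)/3) = ((2 * n : ℕ) : ℝ) ^ (-(1:ℝ)/3 + 1) := by norm_num
      rw [this, Real.rpow_add hnp, Real.rpow_one]
    rw [h3] at h2
    have h4 : (s (2 * n) : ℝ) ≤ n := by
      calc (s (2 * n) : ℝ) ≤ K * (((2 * n : ℕ) : ℝ) ^ (-(1:ℝ)/3) * ((2 * n : ℕ) : ℝ)) := h2
        _ = ((2 * K) * ((2 * n : ℕ) : ℝ) ^ (-(1:ℝ)/3)) * n := by push_cast; ring
        _ ≤ 1 * n := mul_le_mul_of_nonneg_right h1.le (Nat.cast_nonneg n)
        _ = n := one_mul _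
    exact_mod_cast h4
  obtain ⟨n0, hn0⟩ := hsmall
  set D := 5 * ((1 + C) * K) with hD
  have hD0 : 0 ≤ D := by positivity
  -- liminf bound
  have hkey : ∀ n, max n0 1 ≤ n → β n - D * (n:ℝ) ^ (-(1:ℝ)/3) ≤ liminf β atTop := by
    intro n hn
    have hn1 : 1 ≤ n := (le_max_right _ _).trans hn
    have hnn0 : n0 ≤ n := (le_max_left _ _).trans hn
    apply le_of_forall_pos_sub_le
    intro ε hε
    obtain ⟨Q, hQ1, hQ⟩ : ∃ Q : ℕ, 1 ≤ Q ∧ C / Q < ε / 2 := by
      obtain ⟨Q, hQ⟩ := exists_nat_gt (2 * C / ε)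
      refine ⟨Q + 1, by omega, ?_⟩
      have hQ' : (0:ℝ) < ((Q + 1 : ℕ) : ℝ) := by positivity
      rw [div_lt_iff₀ hQ']
      rw [div_lt_iff₀ hε] at hQ
      push_cast
      nlinarith
    have ht : Tendsto (fun N : ℕ => 3 * Q * K * (1 + C) * (N:ℝ) ^ (-(1:ℝ)/3)) atTop (𝓝 (3 * Q * K * (1 + C) * 0)) := by
      apply Tendsto.const_mul
      have h1 : Tendsto (fun x : ℝ => x ^ (-((1:ℝ)/3))) atTop (𝓝 0) :=
        tendsto_rpow_neg_atTop (by norm_num)
      have := h1.comp tendsto_natCast_atTop_atTop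
      simpa [neg_div, Function.comp_def] using this
    rw [mul_zero] at ht
    have hev := ht.eventually (gt_mem_nhds (show (0:ℝ) < ε / 2 by linarith))
    apply le_liminf_of_le hbdd.isCoboundedUnder_ge
    filter_upwards [hev, eventually_ge_atTop (Q * n)] with N hN1 hN2
    have := final_step hmono h0 hC hC0 hK hsm hs hsup n hn1 (fun m hm => hn0 m (hnn0.trans hm)) Q hQ1 N hN2
    show β n - D * (n:ℝ) ^ (-(1:ℝ)/3) - ε ≤ b N / N
    have e : β n = b n / n := rfl
    rw [e]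
    linarith
  have hls : limsup β atTop ≤ liminf β atTop := by
    apply le_of_forall_pos_le_add
    intro ε hε
    have h1 : Tendsto (fun n : ℕ => D * (n:ℝ) ^ (-(1:ℝ)/3)) atTop (𝓝 (D * 0)) := by
      apply Tendsto.const_mul
      have h1 : Tendsto (fun x : ℝ => x ^ (-((1:ℝ)/3))) atTop (𝓝 0) :=
        tendsto_rpow_neg_atTop (by norm_num)
      have := h1.comp tendsto_natCast_atTop_atTop
      simpa [neg_div, Function.comp_def] using this
    rw [mul_zero] at h1
    have hev := h1.eventually (gt_mem_nhds hε)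
    apply limsup_le_of_le hbdd'.isCoboundedUnder_le
    filter_upwards [hev, eventually_ge_atTop (max n0 1)] with n hn1 hn2
    have := hkey n hn2
    linarith
  refine ⟨limsup β atTop, ?_⟩
  exact tendsto_of_le_liminf_of_limsup_le hls le_rfl hbdd hbdd'

end

end Pool.Agent.Lib.P8e4414
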