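import Mathlib

/-!
# Site weights of lists of sites
-/

set_option autoImplicit false

open Finset

namespace Pool.Agent.Lib.P8e4414

variable {X : Type*} [DecidableEq X]

/-- The weight of a list of visited sites. -/
noncomputable def W (g : ℕ → ℝ) (A : List X) : ℝ := ∏ x ∈ A.toFinset, g (A.count x)

section

variable {g : ℕ → ℝ} {c : ℝ}

lemma W_eq_prod (g0 : g 0 = 1) (A : List X) {T : Finset X} (hT : A.toFinset ⊆ T) :
    W g A = ∏ x ∈ T, g (A.count x) := by
  unfold W
  apply Finset.prod_subset hT
  intro x _ hx
  rw [List.count_eq_zero_of_not_mem (by simpa using hx), g0]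

lemma W_perm {A B : List X} (h : A.Perm B) : W g A = W g B := by
  unfold W
  rw [List.toFinset_eq_of_perm _ _ h]
  apply Finset.prod_congr rfl
  intro x _
  rw [h.count_eq]

lemma W_map {Y : Type*} [DecidableEq Y] (f : X → Y) (hf : Function.Injective f) (A : List X) :
    W g (A.map f) = W g A := by
  unfold W
  have h : (A.map f).toFinset = A.toFinset.image f := by
    ext y; simp
  rw [h, Finset.prod_image (fun x _ y _ h => hf h)]
  apply Finset.prod_congr rfl
  intro x _
  rw [List.count_map_of_injective _ _ hf]

lemma W_pos (hg : ∀ n, 0 < g n) (A : List X) : 0 < W g A :=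
  Finset.prod_pos fun x _ => hg _

lemma W_le_one (hg : ∀ n, 0 < g n) (hg1 : ∀ n, g n ≤ 1) (A : List X) : W g A ≤ 1 :=
  Finset.prod_le_one (fun x _ => (hg _).le) (fun x _ => hg1 _)

lemma g_add_ge (hc : 0 ≤ c) (hstep : ∀ n, c * g n ≤ g (n + 1)) (a b : ℕ) :
    c ^ b * g a ≤ g (a + b) := by
  induction b with
  | zero => simp
  | succ b ih =>
    calc c ^ (b + 1) * g a = c * (c ^ b * g a) := by ring
      _ ≤ c * g (a + b) := by gcongr
      _ ≤ g (a + b + 1) := hstep _
      _ = g (a + (b + 1)) := rfl

lemma sum_count_le (A B : List X) (T : Finset X) :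
    ∑ x ∈ T, (if x ∈ A then B.count x else 0) ≤ B.countP (fun x => x ∈ A) := by
  induction B with
  | nil => simp
  | cons y B ih =>
    rw [List.countP_cons]
    have : ∑ x ∈ T, (if x ∈ A then (y :: B).count x else 0) ≤
        ∑ x ∈ T, (if x ∈ A then B.count x else 0) +
          ∑ x ∈ T, (if y = x then (if y ∈ A then 1 else 0) else 0) := by
      rw [← Finset.sum_add_distrib]
      apply Finset.sum_le_sum
      intro x _
      rw [List.count_cons]
      by_cases hx : x ∈ A
      · by_cases hxy : y = x
        · subst hxy; simp [hx]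
        · simp [hx, hxy]
      · simp [hx]
    refine this.trans (add_le_add ih ?_)
    rw [Finset.sum_ite_eq]
    split_ifs <;> simp_all

lemma sum_count_le_length (B : List X) (T : Finset X) :
    ∑ x ∈ T, B.count x ≤ B.length := by
  induction B with
  | nil => simp
  | cons y B ih =>
    have : ∑ x ∈ T, (y :: B).count x =
        ∑ x ∈ T, B.count x + ∑ x ∈ T, (if y = x then 1 else 0) := by
      rw [← Finset.sum_add_distrib]
      apply Finset.sum_congr rfl
      intro x _
      rw [List.count_cons]
      by_cases hxy : y = x <;> simp [hxy]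
    rw [this, List.length_cons]
    refine add_le_add ih ?_
    rw [Finset.sum_ite_eq]
    split_ifs <;> simp

/-- Appending a list costs at most `c` per element. -/
lemma W_append_ge (hg : ∀ n, 0 < g n) (g0 : g 0 = 1) (hc : 0 < c) (hc1 : c ≤ 1)
    (hstep : ∀ n, c * g n ≤ g (n + 1)) (A B : List X) :
    c ^ B.length * W g A ≤ W g (A ++ B) := by
  have hT : (A ++ B).toFinset ⊆ (A ++ B).toFinset := subset_rfl
  have hA : A.toFinset ⊆ (A ++ B).toFinset := by
    intro x hx; simp at hx ⊢; exact Or.inl hx
  rw [W_eq_prod g0 (A ++ B) hT, W_eq_prod g0 A hA]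
  calc c ^ B.length * ∏ x ∈ (A ++ B).toFinset, g (A.count x)
      ≤ c ^ (∑ x ∈ (A ++ B).toFinset, B.count x) * ∏ x ∈ (A ++ B).toFinset, g (A.count x) := by
        apply mul_le_mul_of_nonneg_right _ (Finset.prod_nonneg fun x _ => (hg _).le)
        exact pow_le_pow_of_le_one hc.le hc1 (sum_count_le_length _ _)
    _ = ∏ x ∈ (A ++ B).toFinset, c ^ B.count x * g (A.count x) := by
        rw [← Finset.prod_pow_eq_pow_sum, Finset.prod_mul_distrib]
    _ ≤ ∏ x ∈ (A ++ B).toFinset, g ((A ++ B).count x) := by
        apply Finset.prod_le_prod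
        · intro x _
          have := hg (A.count x)
          positivity
        · intro x _
          rw [List.count_append]
          exact g_add_ge hc.le hstep _ _

/-- Joining two lists costs at most `c` for each element of the second that lies in the first. -/
lemma W_append_ge' (hg : ∀ n, 0 < g n) (hg1 : ∀ n, g n ≤ 1) (g0 : g 0 = 1) (hc : 0 < c)
    (hc1 : c ≤ 1) (hstep : ∀ n, c * g n ≤ g (n + 1)) (A B : List X) :
    c ^ B.countP (fun x => x ∈ A) * (W g A * W g B) ≤ W g (A ++ B) := by
  have hT : (A ++ B).toFinset ⊆ (A ++ B).toFinset := subset_rfl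
  have hA : A.toFinset ⊆ (A ++ B).toFinset := by
    intro x hx; simp at hx ⊢; exact Or.inl hx
  have hB : B.toFinset ⊆ (A ++ B).toFinset := by
    intro x hx; simp at hx ⊢; exact Or.inr hx
  rw [W_eq_prod g0 (A ++ B) hT, W_eq_prod g0 A hA, W_eq_prod g0 B hB]
  set T := (A ++ B).toFinset
  have hnn : 0 ≤ (∏ x ∈ T, g (A.count x)) * ∏ x ∈ T, g (B.count x) :=
    mul_nonneg (Finset.prod_nonneg fun x _ => (hg _).le) (Finset.prod_nonneg fun x _ => (hg _).le)
  calc c ^ B.countP (fun x => x ∈ A) * ((∏ x ∈ T, g (A.count x)) * ∏ x ∈ T, g (B.count x))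
      ≤ c ^ (∑ x ∈ T, (if x ∈ A then B.count x else 0)) *
        ((∏ x ∈ T, g (A.count x)) * ∏ x ∈ T, g (B.count x)) := by
        apply mul_le_mul_of_nonneg_right _ hnn
        exact pow_le_pow_of_le_one hc.le hc1 (sum_count_le _ _ _)
    _ = ∏ x ∈ T, c ^ (if x ∈ A then B.count x else 0) * (g (A.count x) * g (B.count x)) := by
        rw [← Finset.prod_pow_eq_pow_sum, Finset.prod_mul_distrib, Finset.prod_mul_distrib]
    _ ≤ ∏ x ∈ T, g ((A ++ B).count x) := by
        apply Finset.prod_le_prod
        · intro x _
          have h1 := hg (A.count x)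
          have h2 := hg (B.count x)
          positivity
        · intro x _
          rw [List.count_append]
          have h1 := hg (A.count x)
          have h2 := hg (B.count x)
          by_cases hx : x ∈ A
          · rw [if_pos hx]
            calc c ^ B.count x * (g (A.count x) * g (B.count x))
                ≤ c ^ B.count x * (g (A.count x) * 1) := by
                  gcongr
                  exact hg1 _
              _ = c ^ B.count x * g (A.count x) := by ring
              _ ≤ _ := g_add_ge hc.le hstep _ _
          · rw [if_neg hx, List.count_eq_zero_of_not_mem hx, g0]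
            simp

end

end Pool.Agent.Lib.P8e4414
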