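import Mathlib
import Pool.Agent.Lib.P8e4414.Weight

/-!
# Joining two lattice walks by a connecting path
-/

set_option autoImplicit false

open Finset

namespace Pool.Agent.Lib.P8e4414

/-- Unit steps on `ℤ^d`. -/
abbrev Step (d : ℕ) := Fin d × Bool

/-- The vector of a step. -/
def stepVec {d : ℕ} (s : Step d) : Fin d → ℤ := Pi.single s.1 (if s.2 then 1 else -1)

/-- The sites visited after the start `a`. -/
def sites {d : ℕ} : (Fin d → ℤ) → List (Step d) → List (Fin d → ℤ)
  | _, [] => []
  | a, s :: L => (a + stepVec s) :: sites (a + stepVec s) L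

/-- The displacement of a list of steps. -/
def disp {d : ℕ} (L : List (Step d)) : Fin d → ℤ := (L.map stepVec).sum

section

variable {d : ℕ}

lemma sites_length (a : Fin d → ℤ) (L : List (Step d)) : (sites a L).length = L.length := by
  induction L generalizing a with
  | nil => rfl
  | cons s L ih => simp [sites, ih]

lemma sites_append (a : Fin d → ℤ) (L M : List (Step d)) :
    sites a (L ++ M) = sites a L ++ sites (a + disp L) M := by
  induction L generalizing a with
  | nil => simp [sites, disp]
  | cons s L ih =>
    simp only [List.cons_append, sites, ih, disp, List.map_cons, List.sum_cons, add_assoc]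

lemma sites_eq_map (a : Fin d → ℤ) (L : List (Step d)) :
    sites a L = (sites 0 L).map (fun x => a + x) := by
  have key : ∀ (b : Fin d → ℤ), sites (a + b) L = (sites b L).map (fun x => a + x) := by
    induction L with
    | nil => intro b; rfl
    | cons s L ih =>
      intro b
      simp only [sites, List.map_cons, add_assoc]
      rw [ih]
  simpa using key 0

lemma disp_append (L M : List (Step d)) : disp (L ++ M) = disp L + disp M := by
  simp [disp]

lemma disp_replicate (n : ℕ) (s : Step d) : disp (List.replicate n s) = (n : ℤ) • stepVec s := by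
  simp [disp, List.map_replicate, List.sum_replicate]

/-- The connecting path of length `4 S`. -/
def conn (i0 i1 : Fin d) (S a b : ℕ) : List (Step d) :=
  List.replicate (S + a) (i0, true) ++ List.replicate (S - a) (i0, false) ++
    (List.replicate (S + b) (i1, true) ++ List.replicate (S - b) (i1, false))

lemma conn_length (i0 i1 : Fin d) {S a b : ℕ} (ha : a ≤ S) (hb : b ≤ S) :
    (conn i0 i1 S a b).length = 4 * S := by
  simp [conn]; omega

lemma disp_conn (i0 i1 : Fin d) {S a b : ℕ} (ha : a ≤ S) (hb : b ≤ S) :
    disp (conn i0 i1 S a b) = Pi.single i0 (2 * (a:ℤ)) + Pi.single i1 (2 * (b:ℤ)) := by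
  unfold conn
  simp only [disp_append, disp_replicate, stepVec]
  funext j
  simp only [Pi.add_apply, Pi.smul_apply, Pi.single_apply, smul_eq_mul]
  push_cast [ha, hb]
  split_ifs <;> simp_all <;> ring

variable {g : ℕ → ℝ} {c : ℝ}

/-- The good shift. -/
lemma exists_conn (hg : ∀ n, 0 < g n) (hg1 : ∀ n, g n ≤ 1) (g0 : g 0 = 1) (hc : 0 < c)
    (hc1 : c ≤ 1) (hstep : ∀ n, c * g n ≤ g (n + 1)) {i0 i1 : Fin d} (hi : i0 ≠ i1)
    (S : ℕ) (L M : List (Step d)) (hS : L.length * M.length ≤ S * (S + 1) ^ 2) :
    ∃ R : List (Step d), R.length = 4 * S ∧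
      c ^ (5 * S) * (W g (sites 0 L) * W g (sites 0 M)) ≤ W g (sites 0 (L ++ R ++ M)) := by
  classical
  set P := sites 0 L with hP
  set Q := sites 0 M with hQ
  set T : Finset (ℕ × ℕ) := range (S + 1) ×ˢ range (S + 1) with hT
  set D : ℕ × ℕ → (Fin d → ℤ) := fun p => disp L + (Pi.single i0 (2 * (p.1:ℤ)) + Pi.single i1 (2 * (p.2:ℤ)))
    with hD
  have hDinj : Function.Injective D := by
    rintro ⟨a, b⟩ ⟨a', b'⟩ h
    have h' := add_left_cancel h
    have h0 := congrFun h' i0
    have h1 := congrFun h' i1
    simp only [Pi.add_apply, Pi.single_eq_same, Pi.single_eq_of_ne hi,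
      Pi.single_eq_of_ne hi.symm] at h0 h1
    ext <;> simp <;> omega
  have hsum : ∑ p ∈ T, (Q.map (fun x => D p + x)).countP (fun x => x ∈ P) ≤
      ∑ p ∈ T, S := by
    have h1 : ∑ p ∈ T, (Q.map (fun x => D p + x)).countP (fun x => x ∈ P) ≤
        Q.length * P.length := by
      clear_value Q
      clear hQ
      induction Q with
      | nil => simp
      | cons y Q ih =>
        simp only [List.map_cons, List.countP_cons, List.length_cons]
        rw [Finset.sum_add_distrib]
        have h2 : ∑ p ∈ T, (if decide (D p + y ∈ P) = true then 1 else 0) ≤ P.length := by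
          rw [← Finset.card_filter]
          calc (T.filter fun p => decide (D p + y ∈ P) = true).card
              = ((T.filter fun p => decide (D p + y ∈ P) = true).image fun p => D p + y).card := by
                rw [Finset.card_image_of_injective]
                intro p q hpq
                exact hDinj (add_right_cancel hpq)
            _ ≤ P.toFinset.card := by
                apply Finset.card_le_card
                intro x hx
                simp only [Finset.mem_image, Finset.mem_filter, decide_eq_true_eq] at hx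
                obtain ⟨p, ⟨_, hp⟩, rfl⟩ := hx
                simpa using hp
            _ ≤ P.length := List.toFinset_card_le P
        calc _ ≤ Q.length * P.length + P.length := add_le_add ih h2
          _ = _ := by ring
    refine h1.trans ?_
    rw [Finset.sum_const, hT, Finset.card_product, Finset.card_range, smul_eq_mul]
    rw [hP, hQ, sites_length, sites_length]
    nlinarith [hS]
  obtain ⟨p, hpT, hp⟩ := Finset.exists_le_of_sum_le
    (⟨(0, 0), by simp [hT]⟩ : T.Nonempty) hsum
  obtain ⟨a, b⟩ := p
  have ha : a ≤ S := by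
    have := (Finset.mem_product.mp hpT).1
    simp at this; omega
  have hb : b ≤ S := by
    have := (Finset.mem_product.mp hpT).2
    simp at this; omega
  refine ⟨conn i0 i1 S a b, conn_length i0 i1 ha hb, ?_⟩
  rw [sites_append, sites_append, disp_append, disp_conn i0 i1 ha hb, zero_add, zero_add,
    sites_eq_map (disp L + _) M]
  set R := sites (disp L) (conn i0 i1 S a b) with hR
  have hRl : R.length = 4 * S := by rw [hR, sites_length, conn_length i0 i1 ha hb]
  have hp' : (Q.map (fun x => D (a, b) + x)).countP (fun x => x ∈ P) ≤ S := hp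
  have hperm : (P ++ R ++ Q.map (fun x => D (a, b) + x)).Perm
      (P ++ Q.map (fun x => D (a, b) + x) ++ R) := by
    rw [List.append_assoc, List.append_assoc]
    exact List.Perm.append_left _ List.perm_append_comm
  have hW0 : 0 < W g P := W_pos hg _
  have hW1 : 0 < W g Q := W_pos hg _
  calc c ^ (5 * S) * (W g P * W g Q)
      = c ^ (4 * S) * (c ^ S * (W g P * W g Q)) := by ring
    _ ≤ c ^ (4 * S) * (c ^ (Q.map (fun x => D (a, b) + x)).countP (fun x => x ∈ P) *
          (W g P * W g Q)) := by
        have := pow_le_pow_of_le_one hc.le hc1 hp'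
        gcongr
    _ = c ^ (4 * S) * (c ^ (Q.map (fun x => D (a, b) + x)).countP (fun x => x ∈ P) *
          (W g P * W g (Q.map (fun x => D (a, b) + x)))) := by
        rw [W_map _ (add_right_injective _)]
    _ ≤ c ^ (4 * S) * W g (P ++ Q.map (fun x => D (a, b) + x)) := by
        have := W_append_ge' hg hg1 g0 hc hc1 hstep P (Q.map (fun x => D (a, b) + x))
        gcongr
    _ = c ^ R.length * W g (P ++ Q.map (fun x => D (a, b) + x)) := by rw [hRl]
    _ ≤ W g (P ++ Q.map (fun x => D (a, b) + x) ++ R) :=
        W_append_ge hg g0 hc hc1 hstep _ _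
    _ = W g (P ++ R ++ Q.map (fun x => D (a, b) + x)) := (W_perm hperm).symm

/-- Total weight of the `n`-step walks. -/
noncomputable def Y (d : ℕ) (g : ℕ → ℝ) (n : ℕ) : ℝ :=
  ∑ v : List.Vector (Step d) n, W g (sites 0 v.toList)

lemma Y_pos_aux (hg : ∀ n, 0 < g n) (n : ℕ) : 0 ≤ Y d g n :=
  Finset.sum_nonneg fun _ _ => (W_pos hg _).le

lemma Y_mul (hg : ∀ n, 0 < g n) (hg1 : ∀ n, g n ≤ 1) (g0 : g 0 = 1) (hc : 0 < c)
    (hc1 : c ≤ 1) (hstep : ∀ n, c * g n ≤ g (n + 1)) (hd : 2 ≤ d) (n m S : ℕ)
    (hS : n * m ≤ S * (S + 1) ^ 2) :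
    c ^ (5 * S) * (Y d g n * Y d g m) ≤ Y d g (n + 4 * S + m) := by
  classical
  have hi : (⟨0, by omega⟩ : Fin d) ≠ ⟨1, by omega⟩ := by simp
  have hex : ∀ p : List.Vector (Step d) n × List.Vector (Step d) m,
      ∃ R : List.Vector (Step d) (4 * S),
      c ^ (5 * S) * (W g (sites 0 p.1.toList) * W g (sites 0 p.2.toList)) ≤
        W g (sites 0 ((p.1 ++ R) ++ p.2).toList) := by
    rintro ⟨v, w⟩
    obtain ⟨R, hR, h⟩ := exists_conn hg hg1 g0 hc hc1 hstep hi S v.toList w.toList
      (by rw [List.Vector.toList_length, List.Vector.toList_length]; exact hS)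
    exact ⟨⟨R, hR⟩, h⟩
  choose R hR using hex
  let F : List.Vector (Step d) n × List.Vector (Step d) m →
      List.Vector (Step d) (n + 4 * S + m) := fun p => (p.1 ++ (R p)) ++ p.2
  have hFinj : Function.Injective F := by
    rintro ⟨v, w⟩ ⟨v', w'⟩ h
    have h1 := congrArg List.Vector.toList h
    simp only [F, List.Vector.toList_append] at h1
    have h2 := List.append_inj h1 (by simp)
    have h3 := List.append_inj h2.1 (by simp)
    ext1
    · exact List.Vector.toList_injective h3.1
    · exact List.Vector.toList_injective h2.2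
  unfold Y
  rw [Finset.sum_mul_sum, ← Finset.sum_product', Finset.mul_sum, Finset.univ_product_univ]
  calc ∑ p : List.Vector (Step d) n × List.Vector (Step d) m,
        c ^ (5 * S) * (W g (sites 0 p.1.toList) * W g (sites 0 p.2.toList))
      ≤ ∑ p : List.Vector (Step d) n × List.Vector (Step d) m, W g (sites 0 (F p).toList) :=
        Finset.sum_le_sum fun p _ => hR p
    _ = ∑ u ∈ Finset.univ.image F, W g (sites 0 u.toList) := by
        rw [Finset.sum_image (fun x _ y _ h => hFinj h)]
    _ ≤ ∑ u : List.Vector (Step d) (n + 4 * S + m), W g (sites 0 u.toList) := by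
        apply Finset.sum_le_sum_of_subset_of_nonneg (Finset.subset_univ _)
        intro u _ _
        exact (W_pos hg _).le

lemma Y_succ (hg : ∀ n, 0 < g n) (g0 : g 0 = 1) (hc : 0 < c)
    (hc1 : c ≤ 1) (hstep : ∀ n, c * g n ≤ g (n + 1)) (hd : 2 ≤ d) (n : ℕ) :
    c * Y d g n ≤ Y d g (n + 1) := by
  classical
  let s0 : Step d := (⟨0, by omega⟩, true)
  let F : List.Vector (Step d) n → List.Vector (Step d) (n + 1) := fun v =>
    v ++ (s0 ::ᵥ List.Vector.nil : List.Vector (Step d) 1)
  have hFinj : Function.Injective F := by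
    intro v v' h
    have h1 := congrArg List.Vector.toList h
    simp only [F, List.Vector.toList_append] at h1
    have h2 := List.append_inj h1 (by simp)
    exact List.Vector.toList_injective h2.1
  unfold Y
  rw [Finset.mul_sum]
  calc ∑ v : List.Vector (Step d) n, c * W g (sites 0 v.toList)
      ≤ ∑ v : List.Vector (Step d) n, W g (sites 0 (F v).toList) := by
        apply Finset.sum_le_sum
        intro v _
        simp only [F, List.Vector.toList_append]
        rw [sites_append]
        have h1 := W_append_ge hg g0 hc hc1 hstep (sites 0 v.toList)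
          (sites (0 + disp v.toList) (List.Vector.toList (s0 ::ᵥ List.Vector.nil : List.Vector (Step d) 1)))
        have h2 : (sites (0 + disp v.toList) (List.Vector.toList (s0 ::ᵥ List.Vector.nil : List.Vector (Step d) 1))).length = 1 := by
          rw [sites_length]; simp
        rw [h2, pow_one] at h1
        exact h1
    _ = ∑ u ∈ Finset.univ.image F, W g (sites 0 u.toList) := by
        rw [Finset.sum_image (fun x _ y _ h => hFinj h)]
    _ ≤ ∑ u : List.Vector (Step d) (n + 1), W g (sites 0 u.toList) := by
        apply Finset.sum_le_sum_of_subset_of_nonneg (Finset.subset_univ _)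
        intro u _ _
        exact (W_pos hg _).le

lemma Y_zero : Y d g 0 = 1 := by
  unfold Y
  rw [Fintype.sum_eq_single List.Vector.nil]
  · simp [sites, W]
  · intro v hv
    exact absurd (List.Vector.eq_nil v) hv

lemma Y_le (hg : ∀ n, 0 < g n) (hg1 : ∀ n, g n ≤ 1) (n : ℕ) :
    Y d g n ≤ (2 * d : ℝ) ^ n := by
  unfold Y
  calc ∑ v : List.Vector (Step d) n, W g (sites 0 v.toList)
      ≤ ∑ _v : List.Vector (Step d) n, (1:ℝ) := Finset.sum_le_sum fun v _ => W_le_one hg hg1 _
    _ = (2 * d : ℝ) ^ n := by
      rw [Finset.sum_const, Finset.card_univ, card_vector]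
      simp [mul_comm]

end

end Pool.Agent.Lib.P8e4414
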