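import Mathlib
import Pool.Agent.Lib.P8e4414.Walk
import Pool.Agent.Lib.P8e4414.Conv

/-!
# Existence of the exponential growth rate of the walk sums
-/

set_option autoImplicit false

open Filter Topology

namespace Pool.Agent.Lib.P8e4414

variable {d : ℕ} {g : ℕ → ℝ} {c : ℝ}

lemma Y_pos (hg : ∀ n, 0 < g n) (g0 : g 0 = 1) (hc : 0 < c)
    (hc1 : c ≤ 1) (hstep : ∀ n, c * g n ≤ g (n + 1)) (hd : 2 ≤ d) (n : ℕ) : 0 < Y d g n := by
  induction n with
  | zero => rw [Y_zero]; norm_num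
  | succ n ih => exact (mul_pos hc ih).trans_le (Y_succ hg g0 hc hc1 hstep hd n)

/-- `⌈N^(2/3)⌉`. -/
noncomputable def side (N : ℕ) : ℕ := ⌈(N:ℝ) ^ ((2:ℝ)/3)⌉₊

lemma side_mono : Monotone side := by
  intro a b hab
  apply Nat.ceil_mono
  exact Real.rpow_le_rpow (by positivity) (by exact_mod_cast hab) (by norm_num)

lemma side_le (N : ℕ) : (side N : ℝ) ≤ 2 * (N:ℝ) ^ ((2:ℝ)/3) := by
  unfold side
  rcases Nat.eq_zero_or_pos N with h | h
  · subst h
    simp
  · have h1 : (1:ℝ) ≤ (N:ℝ) ^ ((2:ℝ)/3) :=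
      Real.one_le_rpow (by exact_mod_cast h) (by norm_num)
    have h2 := (Nat.ceil_lt_add_one (show 0 ≤ (N:ℝ) ^ ((2:ℝ)/3) by positivity)).le
    linarith

lemma side_spec (n m : ℕ) : n * m ≤ side (n + m) * (side (n + m) + 1) ^ 2 := by
  have h1 : ((n + m : ℕ) : ℝ) ^ 2 ≤ (side (n + m) : ℝ) ^ 3 := by
    have h2 : ((n + m : ℕ) : ℝ) ^ ((2:ℝ)/3) ≤ (side (n + m) : ℝ) := Nat.le_ceil _
    calc ((n + m : ℕ) : ℝ) ^ 2 = (((n + m : ℕ) : ℝ) ^ ((2:ℝ)/3)) ^ (3:ℕ) := by
          rw [← Real.rpow_natCast (((n + m : ℕ) : ℝ) ^ ((2:ℝ)/3)), ← Real.rpow_mul (by positivity)]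
          norm_num
      _ ≤ _ := by gcongr
  have h3 : (n + m) ^ 2 ≤ side (n + m) ^ 3 := by exact_mod_cast h1
  generalize side (n + m) = S at *
  nlinarith [Nat.zero_le n, Nat.zero_le m, Nat.zero_le S, sq_nonneg (n - m : ℤ), Nat.zero_le (S^2)]

theorem tendsto_log_Y (hg : ∀ n, 0 < g n) (hg1 : ∀ n, g n ≤ 1) (g0 : g 0 = 1) (hc : 0 < c)
    (hc1 : c ≤ 1) (hstep : ∀ n, c * g n ≤ g (n + 1)) (hd : 2 ≤ d) :
    ∃ ℓ : ℝ, Tendsto (fun n : ℕ => Real.log (Y d g n) / n) atTop (𝓝 ℓ) := by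
  have hY : ∀ n, 0 < Y d g n := Y_pos hg g0 hc hc1 hstep hd
  set κ : ℝ := -Real.log c with hκ
  have hκ0 : 0 ≤ κ := by
    have := Real.log_nonpos hc.le hc1
    linarith
  set b : ℕ → ℝ := fun n => Real.log (Y d g n) + κ * n with hb
  set K0 : ℕ := ⌈κ⌉₊ with hK0
  have hκK : κ ≤ K0 := Nat.le_ceil _
  set s : ℕ → ℕ := fun N => (4 + K0) * side N with hs
  have hmono : Monotone b := by
    apply monotone_nat_of_le_succ
    intro n
    have h1 := Y_succ hg g0 hc hc1 hstep hd n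
    have h2 := Real.log_le_log (mul_pos hc (hY n)) h1
    rw [Real.log_mul hc.ne' (hY n).ne'] at h2
    simp only [hb]
    push_cast
    rw [hκ] at *
    linarith
  have h0 : 0 ≤ b 0 := by simp [hb, Y_zero]
  have hlog2d : 0 ≤ Real.log (2 * d : ℝ) := by
    apply Real.log_nonneg
    have : (2:ℝ) ≤ d := by exact_mod_cast hd
    linarith
  have hC : ∀ n : ℕ, b n ≤ (Real.log (2 * d : ℝ) + κ) * n := by
    intro n
    have h1 := Real.log_le_log (hY n) (Y_le (d := d) hg hg1 n)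
    rw [Real.log_pow] at h1
    simp only [hb]
    linarith
  have hsmono : Monotone s := by
    intro a b hab
    exact Nat.mul_le_mul_left _ (side_mono hab)
  have hsle : ∀ n : ℕ, (s n : ℝ) ≤ (2 * (4 + K0 : ℝ)) * (n:ℝ) ^ ((2:ℝ)/3) := by
    intro n
    have h1 := side_le n
    simp only [hs]
    push_cast
    nlinarith [Nat.cast_nonneg (α := ℝ) K0]
  have hsup : ∀ n m : ℕ, b n + b m - s (n + m) ≤ b (n + m + s (n + m)) := by
    intro n m
    have h1 := Y_mul hg hg1 g0 hc hc1 hstep hd n m (side (n + m)) (side_spec n m)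
    have h2 := Real.log_le_log (by have := hY n; have := hY m; positivity) h1
    rw [Real.log_mul (by positivity) (mul_pos (hY n) (hY m)).ne',
      Real.log_mul (hY n).ne' (hY m).ne', Real.log_pow] at h2
    have h3 : b (n + 4 * side (n + m) + m) ≤ b (n + m + s (n + m)) := by
      apply hmono
      simp only [hs]
      nlinarith [Nat.zero_le (K0 * side (n + m))]
    refine le_trans ?_ h3
    simp only [hb, hs]
    push_cast at h2 ⊢
    have h4 : κ * (side (n + m) : ℝ) ≤ K0 * side (n + m) := by gcongr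
    have h5 : (0:ℝ) ≤ side (n + m) := by positivity
    have h6 : Real.log c = -κ := by rw [hκ]; ring
    rw [h6] at h2
    nlinarith
  obtain ⟨ℓ, hℓ⟩ := tendsto_of_near_superadd hmono h0 hC (by positivity)
    (by positivity : (0:ℝ) ≤ 2 * (4 + K0 : ℝ)) hsmono hsle hsup
  refine ⟨ℓ - κ, ?_⟩
  have h1 : Tendsto (fun n : ℕ => b n / n - κ) atTop (𝓝 (ℓ - κ)) := hℓ.sub_const κ
  apply h1.congr'
  filter_upwards [eventually_ge_atTop 1] with n hn
  have hn' : (n:ℝ) ≠ 0 := by positivity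
  simp only [hb]
  field_simp
  ring

end Pool.Agent.Lib.P8e4414
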